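import Pool.Agent.H76.ND.Targets

/-!
# D1: the norms give `(O1)` and `(O2)`
-/

set_option autoImplicit false

open MeasureTheory ProbabilityTheory
open scoped ENNReal

namespace Pool.Agent.H85.ND

open Pool.Agent.H99.NS Pool.Agent.H22.LPP Pool.Agent.H95.INS Pool.Agent.H76.ND

theorem pf_D1 (h_U : T_U) (h_O1 : T_O1) (h_LBC : T_LBC) (h_O2 : T_O2) : T_D1 := by
  intro q hq0 hq1
  obtain ⟨C1, hC1, H1⟩ := h_O1 q hq0 hq1
  obtain ⟨C0, hC0, H0⟩ := h_LBC q hq0 hq1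
  obtain ⟨C2, hC2, H2⟩ := h_O2 q C0 hq0 hq1 hC0
  refine ⟨C1 + C2, by positivity, ?_⟩
  intro c Xc a I k ω hcq hK0 hK hXc h4Xc ha hak hkI hGN
  subst hcq
  have hK1 : C1 * c.K0 ^ 2 ≤ c.K := by nlinarith [sq_nonneg c.K0]
  have hK2 : C2 * c.K0 ≤ c.K := by
    have h3 : c.K0 ≤ c.K0 ^ 2 := by nlinarith
    have h4 : C2 * c.K0 ≤ C2 * c.K0 ^ 2 := mul_le_mul_of_nonneg_left h3 hC2.le
    nlinarith [sq_nonneg c.K0, mul_nonneg hC1.le (sq_nonneg c.K0)]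
  have h4k : 4 * Xc ≤ 4 ^ k := h4Xc.trans (pow_le_pow_right₀ (by norm_num) hak)
  -- upper bounds
  have hU := h_U (fwd ω) c.q c.K0 a k k hq0 hq1 (by linarith) ha hak le_rfl
    ((hGN a le_rfl (hak.trans hkI)).uc rfl)
    (fun i hai hik => ⟨(hGN i hai (hik.trans hkI)).um, (hGN i hai (hik.trans hkI)).up⟩)
  rw [Nat.sub_self, pow_zero, mul_one] at hU
  have hO1 : O1 (dk c Xc k) ω :=
    H1 (dk c Xc k) k c.K0 ω (ha.trans hak) hK0 rfl rfl rfl rfl hK1 hU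
  -- lower bounds
  have hL := H0 (fwd ω) c.K0 Xc a k k hK0 hXc h4Xc ha hak le_rfl
    ((hGN a le_rfl (hak.trans hkI)).lc rfl)
    (fun i hai hik => ⟨(hGN i hai (hik.le.trans hkI)).lm, (hGN i hai (hik.le.trans hkI)).lp⟩)
  rw [Nat.sub_self, pow_zero, mul_one] at hL
  have hO2 := H2 (dk c Xc k) k c.K0 Xc ω (ha.trans hak) hK0 hXc h4k rfl rfl rfl rfl rfl hK2 hL
    (hGN k hak hkI).lm (hGN k hak hkI).lp
  exact ⟨hO1, hO2.1, hO2.2⟩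

end Pool.Agent.H85.ND
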