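import Pool.Agent.H76.ND.Targets

/-!
# DIF: the effect of a change inside the box
-/

set_option autoImplicit false

open MeasureTheory ProbabilityTheory
open scoped ENNReal

namespace Pool.Agent.H85.ND

open Pool.Agent.H99.NS Pool.Agent.H22.LPP Pool.Agent.H95.INS Pool.Agent.H76.ND

theorem sg_nonneg {q : ℝ} (h1 : q < 1) : 0 ≤ sg q := by
  unfold sg
  exact div_nonneg (Real.sqrt_nonneg _) (by linarith)

/-- The real inequality. -/
theorem dif_real {n f B w K s m a b W T' : ℝ} (hn : 1 ≤ n) (hf : 0 < f) (_hB : 0 ≤ B)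
    (hw : 1 ≤ w) (hK : 0 ≤ K) (hs : 0 ≤ s) (hsc : w ^ 2 = 8 * n * f)
    (ha : |a| ≤ B * w) (hb : |b| ≤ B * w)
    (h1 : W ≤ m - s / 2 * (b - a) ^ 2 / (512 * n + 8 * n / 50) + K * f * (1 + max |a| |b| / w))
    (h2 : m - s / 2 * (b - a) ^ 2 / (512 * n) - K * f * (1 + max |a| |b| / w) ≤ T') :
    W - T' ≤ (2 * K * (1 + B) + s * B ^ 2) * f := by
  have hM : max |a| |b| / w ≤ B := by
    rw [div_le_iff₀ (by linarith)]
    exact max_le ha hb
  have h3 : K * f * (1 + max |a| |b| / w) ≤ K * f * (1 + B) :=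
    mul_le_mul_of_nonneg_left (by linarith) (by positivity)
  have h4 : 0 ≤ s / 2 * (b - a) ^ 2 / (512 * n + 8 * n / 50) := by positivity
  have h5 : (b - a) ^ 2 ≤ 32 * B ^ 2 * n * f := by
    have h6 : |b - a| ≤ 2 * (B * w) := by
      have := abs_sub b a
      linarith
    have h7 : (b - a) ^ 2 ≤ (2 * (B * w)) ^ 2 := by
      rw [← sq_abs (b - a)]
      exact pow_le_pow_left₀ (abs_nonneg _) h6 2
    have h8 : (2 * (B * w)) ^ 2 = 32 * B ^ 2 * n * f := by
      rw [mul_pow, mul_pow, hsc]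
      ring
    linarith
  have h6 : s / 2 * (b - a) ^ 2 / (512 * n) ≤ s * B ^ 2 * f := by
    rw [div_le_iff₀ (by positivity)]
    have h7 : s / 2 * (b - a) ^ 2 ≤ s / 2 * (32 * B ^ 2 * n * f) :=
      mul_le_mul_of_nonneg_left h5 (by positivity)
    have h8 : 0 ≤ s * B ^ 2 * n * f := by positivity
    nlinarith
  nlinarith

theorem pf_DIF : T_DIF := by
  intro D ω ω' o e g hD hE hA hO hL hN hm hp
  obtain ⟨hc, hw⟩ := hN
  have hn := hD.n1
  have ho := hE.o1
  have he := hE.e1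
  have hNN : -(256 * D.n) ≤ 256 * D.n := by omega
  have hpath : IsPath o.1 e.1 g := hc.1
  -- the three parts of the path
  have h1 : wt ω o.1 e.1 g = wt ω o.1 (-(256 * D.n)) g + wt ω (-(256 * D.n)) (256 * D.n) g +
      wt ω (256 * D.n) e.1 g := by
    rw [wt_add ω (show o.1 ≤ 256 * D.n by omega) he g, wt_add ω ho hNN g]
  have hcl : Conn o (-(256 * D.n), g (-(256 * D.n))) g := hc.left (by omega)
  have hcr : Conn (256 * D.n, g (256 * D.n)) e g := hc.right (by omega)
  have hcm : Conn (-(256 * D.n), g (-(256 * D.n))) (256 * D.n, g (256 * D.n)) g :=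
    hc.restrict ho he
  have hr1 : Reach o (-(256 * D.n), g (-(256 * D.n))) := hcl.reach ho
  have hr2 : Reach (-(256 * D.n), g (-(256 * D.n))) (256 * D.n, g (256 * D.n)) := hcm.reach hNN
  have hr3 : Reach (256 * D.n, g (256 * D.n)) e := hcr.reach he
  have h2 : wt ω o.1 (-(256 * D.n)) g ≤ T ω' o (-(256 * D.n), g (-(256 * D.n))) := by
    refine (le_T ω (v := (-(256 * D.n), g (-(256 * D.n)))) ho hcl).trans_eq ?_
    apply T_congr_slab
    intro x _ hx
    apply hA
    simp only at hx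
    rintro ⟨hx1, _⟩
    omega
  have h3 : wt ω (256 * D.n) e.1 g ≤ T ω' (256 * D.n, g (256 * D.n)) e := by
    refine (le_T ω (u := (256 * D.n, g (256 * D.n))) he hcr).trans_eq ?_
    apply T_congr_slab
    intro x hx _
    apply hA
    simp only at hx
    rintro ⟨_, hx1, _⟩
    omega
  have h4 := T_superadd ω' hr1 hr2
  have h5 := T_superadd ω' (reach_trans hr1 hr2) hr3
  -- bounds of the positions
  have hwR : (1:ℝ) ≤ D.w := by exact_mod_cast hD.w1
  have hAR : (2:ℝ) ≤ D.A := by exact_mod_cast hD.A2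
  have hBX : D.B * D.w ≤ D.X := by
    have h6 : (16:ℝ) * D.A * D.w ≤ D.X := by exact_mod_cast hD.X1
    have h7 : D.B * D.w ≤ D.A * D.w := mul_le_mul_of_nonneg_right hD.BA (by linarith)
    have h8 : (0:ℝ) ≤ D.A * D.w := by positivity
    linarith
  have hmX : |g (-(256 * D.n))| ≤ D.X := by
    have := hm.trans hBX
    exact_mod_cast this
  have hpX : |g (256 * D.n)| ≤ D.X := by
    have := hp.trans hBX
    exact_mod_cast this
  have h6 := hO (-(256 * D.n)) (256 * D.n) g le_rfl hNN le_rfl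
    (fun r hr1 hr2 => hpath r (by omega) (by omega)) hmX hpX
  have h7 := hL _ _ hmX hpX hr2
  unfold sp at h6
  unfold par at h7
  simp only at h7
  have e1 : ((256 * D.n - -(256 * D.n) : ℤ) : ℝ) = 512 * (D.n : ℝ) := by push_cast; ring
  rw [e1] at h6 h7
  have e2 : ((g (256 * D.n) - g (-(256 * D.n)) : ℤ) : ℝ) =
    (g (256 * D.n) : ℝ) - (g (-(256 * D.n)) : ℝ) := by push_cast; ring
  rw [e2] at h6 h7
  have hnR : (1:ℝ) ≤ D.n := by exact_mod_cast hn
  have h8 := dif_real hnR hD.f0 hD.B0 hwR hD.K0 (sg_nonneg hD.q1) hD.sc hm hp h6 h7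
  linarith

end Pool.Agent.H85.ND
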