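import Pool.Agent.H76.ND.Targets

/-!
# GD: goodness of the environment gives goodness of the outside
-/

set_option autoImplicit false

open MeasureTheory ProbabilityTheory
open scoped ENNReal

namespace Pool.Agent.H85.ND

open Pool.Agent.H99.NS Pool.Agent.H22.LPP Pool.Agent.H95.INS Pool.Agent.H76.ND

theorem splice_self (A : Set Site) (ω : Env) : splice A ω ω = ω := by
  funext x
  unfold splice
  split_ifs <;> rfl

theorem ds_succ (k : ℕ) : ds k (k + 1) = 1 := by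
  unfold ds
  omega

theorem lv_eq {k : ℕ} (hk : 1 ≤ k) : lv (k + 1) = 256 * (8 * 64 ^ (k - 1)) := by
  obtain ⟨j, rfl⟩ := Nat.exists_eq_add_of_le hk
  unfold lv
  rw [show 1 + j + 1 - 1 = j + 1 by omega, show 1 + j - 1 = j by omega, pow_succ]
  ring

/-- The real inequality. -/
theorem gd_real {C2 K0 B w x y z : ℝ} (hC2 : 0 < C2) (hK0 : 1 ≤ K0) (hw : 0 < w)
    (hB : (24 + 20 * C2) * K0 ≤ B) (hz : z ≤ 1)
    (hy : |y| ≤ 8 * w) (h : |x - y| / (16 * w) ≤ z + C2 * K0 * (101 / 100)) :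
    |x| ≤ B * w := by
  rw [div_le_iff₀ (by positivity)] at h
  have h1 : |x| ≤ |x - y| + |y| := by
    have := abs_add_le (x - y) y
    simpa using this
  have h2 : (z + C2 * K0 * (101 / 100)) * (16 * w) ≤ (1 + C2 * K0 * (101 / 100)) * (16 * w) :=
    mul_le_mul_of_nonneg_right (by linarith) (by positivity)
  have h3 : (24 + 20 * C2) * K0 * w ≤ B * w := mul_le_mul_of_nonneg_right hB hw.le
  have h4 : w ≤ K0 * w := by nlinarith
  have h5 : 0 ≤ C2 * K0 * w := by positivity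
  nlinarith

theorem pf_GD (h_D1 : T_D1) (h_REGE : T_REGE) : T_GD := by
  intro q hq0 hq1
  obtain ⟨C1, hC1, H1⟩ := h_D1 q hq0 hq1
  obtain ⟨C2, hC2, H2⟩ := h_REGE q hq0 hq1
  refine ⟨C1 + (24 + 20 * C2), by positivity, ?_⟩
  intro c Xc a I k ω o e t1 g hcq hK0 hK hB hH hXc h4Xc ha hak hkI ho he hgood hRF hN ht1 ht1'
    hg hRG hD
  have hK1 : C1 * c.K0 ^ 2 ≤ c.K := by nlinarith [sq_nonneg c.K0]
  have hB1 : (24 + 20 * C2) * c.K0 ≤ c.B := by nlinarith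
  obtain ⟨hO1, hO2, _⟩ := H1 c Xc a I k ω hcq hK0 hK1 hXc h4Xc ha hak hkI hgood.1
  have hN' : Near ω o e (4 ^ a) g := by
    refine ⟨hN.1, ?_⟩
    have h1 := hN.2
    have h2 : (0:ℝ) ≤ 4 ^ a := by positivity
    linarith
  have hGN : GN q c.K0 Xc a I k ω := by
    rw [← hcq]
    exact hgood.1
  obtain ⟨H3, _⟩ := H2 c.K0 Xc a I k ω o e t1 g hK0 hXc h4Xc ha hak (hak.trans hkI) ho he
    hGN hN' ht1 ht1' hg hRG
  obtain ⟨h3m, h3p⟩ := H3 (k + 1) (by omega) (by omega)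
  rw [ds_succ, show I + 1 - (k + 1) = I - k by omega, pow_one] at h3m h3p
  have e16 : (16:ℝ) ^ (k + 1) = 16 * 16 ^ k := by rw [pow_succ]; ring
  rw [e16] at h3m h3p
  push_cast at h3m h3p
  have hm : |(g (-lv (k + 1)) : ℝ)| ≤ c.B * 16 ^ k :=
    gd_real hC2 hK0 (by positivity) hB1 hD hg h3m
  have hp : |(g (lv (k + 1)) : ℝ)| ≤ c.B * 16 ^ k :=
    gd_real hC2 hK0 (by positivity) hB1 hD hg h3p
  refine ⟨⟨hgood.2, hRF, ω, g, ?_, ?_, ?_, ?_, ?_⟩, hm, hp⟩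
  · rw [splice_self]; exact hO1
  · rw [splice_self]; exact hO2
  · rw [splice_self]
    refine ⟨hN.1, ?_⟩
    have h1 := hN.2
    have h2 : 0 ≤ (dk c Xc k).H * (dk c Xc k).f / 1000 := by
      have : (0:ℝ) ≤ c.H * 4 ^ k / 1000 := by positivity
      exact this
    linarith
  · have e1 : 256 * (dk c Xc k).n = lv (k + 1) := (lv_eq (ha.trans hak)).symm
    have e2 : (dk c Xc k).B * ((dk c Xc k).w : ℝ) = c.B * 16 ^ k := by
      have : (((16:ℤ) ^ k : ℤ) : ℝ) = 16 ^ k := by push_cast; rfl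
      change c.B * (((16:ℤ) ^ k : ℤ) : ℝ) = c.B * 16 ^ k
      rw [this]
    rw [e1, e2]
    exact hm
  · have e1 : 256 * (dk c Xc k).n = lv (k + 1) := (lv_eq (ha.trans hak)).symm
    have e2 : (dk c Xc k).B * ((dk c Xc k).w : ℝ) = c.B * 16 ^ k := by
      have : (((16:ℤ) ^ k : ℤ) : ℝ) = 16 ^ k := by push_cast; rfl
      change c.B * (((16:ℤ) ^ k : ℤ) : ℝ) = c.B * 16 ^ k
      rw [this]
    rw [e1, e2]
    exact hp

end Pool.Agent.H85.ND
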