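import Pool.Agent.H84.ND.Targets3
import Pool.Agent.H33.Hilbert

/-!
# MP_70ba79_ag, board `ndc_modules`, row BEZ: transversal curves of degrees `a`, `b` have at least
`a b` common points
-/

set_option autoImplicit false

namespace Pool.Agent.H85.ND.BEZ

open MvPolynomial SC Pool.Agent.H27.LV Pool.Agent.H84.SM Pool.Agent.H84.ND

variable {k : Type} [Field k]

theorem cr_zero {s s' : Fin 3 → k} (h : cr s s' = 0) (hs : s' ≠ 0) : ∃ c : k, s = c • s' := by
  obtain ⟨j, hj⟩ := Function.ne_iff.1 hs
  have hj' : s' j ≠ 0 := hj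
  have h0 : s 1 * s' 2 - s 2 * s' 1 = 0 := congrFun h 0
  have h1 : s 2 * s' 0 - s 0 * s' 2 = 0 := congrFun h 1
  have h2 : s 0 * s' 1 - s 1 * s' 0 = 0 := congrFun h 2
  have key : ∀ i j : Fin 3, s i * s' j = s j * s' i := by
    intro i j
    fin_cases i <;> fin_cases j <;> simp only [Fin.mk_one, Fin.reduceFinMk, Fin.zero_eta,
      Fin.isValue]
    · linear_combination h2
    · linear_combination -h1
    · linear_combination -h2
    · linear_combination h0
    · linear_combination h1
    · linear_combination -h0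
  refine ⟨s j / s' j, ?_⟩
  funext i
  show s i = s j / s' j * s' i
  rw [div_mul_eq_mul_div, eq_div_iff hj', key i j]

theorem cr_symm {s s' : Fin 3 → k} (h : cr s s' = 0) : cr s' s = 0 := by
  funext i
  have h0 : s (i + 1) * s' (i + 2) - s (i + 2) * s' (i + 1) = 0 := congrFun h i
  show s' (i + 1) * s (i + 2) - s' (i + 2) * s (i + 1) = 0
  linear_combination -h0

theorem eval_smul' {f : MvPolynomial (Fin 3) k} {m : ℕ} (hf : f.IsHomogeneous m) (c : k)
    (s : Fin 3 → k) : eval (c • s) f = c ^ m * eval s f := by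
  rw [eval_eq, eval_eq, Finset.mul_sum]
  refine Finset.sum_congr rfl fun e he => ?_
  have hd : e.degree = m := by
    by_contra h
    exact mem_support_iff.1 he (hf.coeff_eq_zero h)
  simp only [Pi.smul_apply, smul_eq_mul, mul_pow, Finset.prod_mul_distrib]
  have h1 : ∏ i ∈ e.support, c ^ e i = c ^ m := by
    rw [Finset.prod_pow_eq_pow_sum]
    congr 1
  rw [h1]
  ring

/-- the dimension of the space of forms -/
theorem finrank_W (m : ℕ) :
    Module.finrank k (homogeneousSubmodule (Fin 3) k m) = (m + 2).choose 2 := by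
  have h : homogeneousSubmodule (Fin 3) k m = restrictSupport k {d | d.degree = m} := by
    rw [homogeneousSubmodule_eq_finsupp_supported]
    rfl
  rw [h, Module.finrank_eq_nat_card_basis (basisRestrictSupport k {d | d.degree = m})]
  have e : {d : Fin 3 →₀ ℕ | d.degree = m} ≃
      {f : Fin 3 →₀ ℕ // f ∈ (Finset.univ : Finset (Fin 3)).finsuppAntidiag m} := by
    refine Equiv.subtypeEquivRight fun d => ?_
    rw [Finset.mem_finsuppAntidiag, Set.mem_ofPred_eq, Finsupp.degree_eq_sum]
    simp
  rw [Nat.card_congr e, Nat.card_eq_fintype_card, Fintype.card_coe,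
    Finset.card_finsuppAntidiag_nat_eq_choose, Finset.card_univ, Fintype.card_fin]
  have h3 : 3 + m - 1 = m + 2 := by omega
  rw [h3, Nat.choose_symm_add]

theorem two_choose (x : ℕ) : 2 * (x + 2).choose 2 = (x + 2) * (x + 1) := by
  induction x with
  | zero => rfl
  | succ x ih =>
    have h : (x + 1 + 2).choose 2 = (x + 2).choose 1 + (x + 2).choose 2 :=
      Nat.choose_succ_succ' (x + 2) 1
    rw [h, Nat.choose_one_right, mul_add, ih]
    ring

/-- `(u, v) ↦ u H₁ + v H₂` -/
noncomputable def mp (H1 H2 : MvPolynomial (Fin 3) k) (p q : ℕ) :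
    (homogeneousSubmodule (Fin 3) k p × homogeneousSubmodule (Fin 3) k q) →ₗ[k]
      MvPolynomial (Fin 3) k where
  toFun x := (x.1 : MvPolynomial (Fin 3) k) * H1 + (x.2 : MvPolynomial (Fin 3) k) * H2
  map_add' x y := by
    simp only [Prod.fst_add, Prod.snd_add, Submodule.coe_add]
    ring
  map_smul' c x := by
    simp only [Prod.smul_fst, Prod.smul_snd, Submodule.coe_smul, RingHom.id_apply, smul_add,
      smul_mul_assoc]

/-- `w ↦ (w H₂, - w H₁)` -/
noncomputable def kz {H1 H2 : MvPolynomial (Fin 3) k} {a b : ℕ} (h1 : H1.IsHomogeneous a)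
    (h2 : H2.IsHomogeneous b) (n : ℕ) :
    homogeneousSubmodule (Fin 3) k n →ₗ[k]
      (homogeneousSubmodule (Fin 3) k (n + b) × homogeneousSubmodule (Fin 3) k (n + a)) where
  toFun w := (⟨w * H2, w.2.mul h2⟩, ⟨-(w * H1), (w.2.mul h1).neg⟩)
  map_add' x y := by
    refine Prod.ext (Subtype.ext ?_) (Subtype.ext ?_)
    · simp [add_mul]
    · simp [add_mul, add_comm]
  map_smul' c x := by
    refine Prod.ext (Subtype.ext ?_) (Subtype.ext ?_)
    · simp
    · simp

theorem rank_mp {H1 H2 : MvPolynomial (Fin 3) k} {a b : ℕ} (h1 : H1.IsHomogeneous a)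
    (h2 : H2.IsHomogeneous b) (hH : H1 ≠ 0) (n : ℕ) :
    Module.finrank k (LinearMap.range (mp H1 H2 (n + b) (n + a))) + (n + 2).choose 2 ≤
      (n + b + 2).choose 2 + (n + a + 2).choose 2 := by
  have e1 := LinearMap.finrank_range_add_finrank_ker (mp H1 H2 (n + b) (n + a))
  rw [Module.finrank_prod, finrank_W, finrank_W] at e1
  have hle : LinearMap.range (kz h1 h2 n) ≤ LinearMap.ker (mp H1 H2 (n + b) (n + a)) := by
    rintro _ ⟨w, rfl⟩
    rw [LinearMap.mem_ker]
    show (w : MvPolynomial (Fin 3) k) * H2 * H1 + -((w : MvPolynomial (Fin 3) k) * H1) * H2 = 0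
    ring
  have hinj : Function.Injective (kz h1 h2 n) := by
    intro x y hxy
    have h := congrArg (fun p => (p.2 : MvPolynomial (Fin 3) k)) hxy
    have h' : -((x : MvPolynomial (Fin 3) k) * H1) = -((y : MvPolynomial (Fin 3) k) * H1) := h
    exact Subtype.ext (mul_right_cancel₀ hH (neg_injective h'))
  have e2 := Submodule.finrank_mono hle
  rw [LinearMap.finrank_range_of_inj hinj, finrank_W] at e2
  omega

theorem pf_BEZ (hBZN : T_BZN) : T_BEZ := by
  classical
  intro k _ _ _ H1 H2 a b h1 h2 hH1 hH2 htr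
  by_contra hcon
  let P : ℕ → Prop := fun n => ∃ T : Finset (Fin 3 → k),
    (∀ s ∈ T, s ≠ 0 ∧ eval s H1 = 0 ∧ eval s H2 = 0) ∧
    (∀ s ∈ T, ∀ s' ∈ T, s ≠ s' → cr s s' ≠ 0) ∧ T.card = n
  have hP0 : P 0 := ⟨∅, by simp, by simp, rfl⟩
  have hlt : ∀ n, P n → n < a * b := by
    rintro n ⟨T, hT1, hT2, rfl⟩
    by_contra h
    exact hcon ⟨T, hT1, hT2, not_lt.1 h⟩
  obtain ⟨n, hn, hmax⟩ : ∃ n, P n ∧ ¬ P (n + 1) := by
    by_contra h
    push Not at h
    have hall : ∀ n, P n := fun n => Nat.rec hP0 (fun n ih => h n ih) n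
    exact lt_irrefl _ (hlt _ (hall (a * b)))
  obtain ⟨T, hT1, hT2, hTc⟩ := hn
  have hcov : ∀ s : Fin 3 → k, s ≠ 0 → eval s H1 = 0 → eval s H2 = 0 →
      ∃ s' ∈ T, s' ≠ 0 ∧ ∃ c : k, s = c • s' := by
    intro s hs e1 e2
    by_contra hno
    push Not at hno
    have hcr : ∀ s' ∈ T, cr s s' ≠ 0 := fun s' hs' h => by
      obtain ⟨c, hc⟩ := cr_zero h (hT1 s' hs').1
      exact hno s' hs' (hT1 s' hs').1 c hc
    have hsT : s ∉ T := fun hsT => hno s hsT hs 1 (one_smul _ _).symm
    refine hmax ⟨insert s T, ?_, ?_, ?_⟩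
    · intro x hx
      rcases Finset.mem_insert.1 hx with rfl | hx
      · exact ⟨hs, e1, e2⟩
      · exact hT1 x hx
    · intro x hx y hy hxy
      rcases Finset.mem_insert.1 hx with h | hx'
      · subst h
        rcases Finset.mem_insert.1 hy with h | hy'
        · exact absurd h.symm hxy
        · exact hcr y hy'
      · rcases Finset.mem_insert.1 hy with h | hy'
        · subst h
          exact fun h => hcr x hx' (cr_symm h)
        · exact hT2 x hx' y hy' hxy
    · rw [Finset.card_insert_of_notMem hsT, hTc]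
  have key : ∀ f : MvPolynomial (Fin 3) k, f.IsHomogeneous (n + a + b) →
      (∀ s ∈ T, eval s f = 0) → f ∈ LinearMap.range (mp H1 H2 (n + b) (n + a)) := by
    intro f hf hf0
    have hmem := hBZN k H1 H2 a b h1 h2 htr T hcov f _ hf (fun s hs e1 e2 => by
      obtain ⟨s', hs', -, c, rfl⟩ := hcov s hs e1 e2
      have e3 : eval (c • s') f = c ^ (n + a + b) * eval s' f := eval_smul' hf c s'
      rw [e3, hf0 s' hs', mul_zero])
    obtain ⟨u, v, huv⟩ := Ideal.mem_span_pair.1 hmem
    have e1 : homogeneousComponent (n + a + b) f = f := homogeneousComponent_eq_self hf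
    have e2 := Pool.Agent.H33.homogeneousComponent_mul_of_homog h1 (g := u) (n + b)
    have e3 := Pool.Agent.H33.homogeneousComponent_mul_of_homog h2 (g := v) (n + a)
    have h5 : n + b + a = n + a + b := by omega
    rw [h5] at e2
    refine ⟨(⟨homogeneousComponent (n + b) u, homogeneousComponent_isHomogeneous _ _⟩,
      ⟨homogeneousComponent (n + a) v, homogeneousComponent_isHomogeneous _ _⟩), ?_⟩
    show homogeneousComponent (n + b) u * H1 + homogeneousComponent (n + a) v * H2 = f
    rw [mul_comm _ H1, mul_comm _ H2, ← e2, ← e3, mul_comm H1, mul_comm H2, ← map_add, huv, e1]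
  -- the forms which vanish at the points of `T`
  let ev : homogeneousSubmodule (Fin 3) k (n + a + b) →ₗ[k] (T → k) :=
    { toFun := fun f s => eval (s : Fin 3 → k) (f : MvPolynomial (Fin 3) k)
      map_add' := fun f g => by
        funext s
        simp
      map_smul' := fun c f => by
        funext s
        simp [smul_eval] }
  have r1 := LinearMap.finrank_range_add_finrank_ker ev
  have r2 : Module.finrank k (LinearMap.range ev) ≤ n := by
    refine (Submodule.finrank_le _).trans ?_
    rw [Module.finrank_fintype_fun_eq_card, Fintype.card_coe, hTc]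
  have r3 : (LinearMap.ker ev).map (homogeneousSubmodule (Fin 3) k (n + a + b)).subtype ≤
      LinearMap.range (mp H1 H2 (n + b) (n + a)) := by
    rintro _ ⟨f, hf, rfl⟩
    exact key f f.2 fun s hs => congrFun (LinearMap.mem_ker.1 hf) ⟨s, hs⟩
  have r4 := Submodule.finrank_mono r3
  rw [Submodule.finrank_map_subtype_eq] at r4
  rw [finrank_W] at r1
  have r5 := rank_mp h1 h2 hH1 n
  have r6 := hlt n ⟨T, hT1, hT2, hTc⟩
  have c1 := two_choose n
  have c2 := two_choose (n + a)
  have c3 := two_choose (n + b)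
  have c4 := two_choose (n + a + b)
  nlinarith

end Pool.Agent.H85.ND.BEZ
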