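import Pool.Agent.H84.ND.Targets2
import Pool.Agent.H77.SM.PSJ

/-!
# MP_70ba79_ag, board ndc_modules, PSN: the substitutions are injective on invariant elements
-/

set_option autoImplicit false

namespace Pool.Agent.H85.ND

open MvPolynomial Pool.Agent.H84.SM Pool.Agent.H84.ND Pool.Agent.H77.SM

theorem pf_PSN (hGPN : T_GPN) (hVAL : Pool.Agent.H84.SM.T_VAL) : Pool.Agent.H84.ND.T_PSN := by
  intro k _ _ _ G d hG l N hN h0
  have hd : 2 ≤ d := hG.two
  obtain ⟨-, -, -, -, hder⟩ := hGPN k G d hG
  obtain ⟨ι, hι⟩ : ∃ ι : R2 k →ₐ[k] FractionRing (R2 k), ι = IsScalarTower.toAlgHom k _ _ :=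
    ⟨_, rfl⟩
  have hinj : Function.Injective ι := by
    rw [hι]
    exact IsFractionRing.injective (R2 k) (FractionRing (R2 k))
  have hchar : CharZero (FractionRing (R2 k)) :=
    charZero_of_injective_algebraMap (algebraMap k (FractionRing (R2 k))).injective
  obtain ⟨x, hx⟩ : ∃ x : Fin 3 → FractionRing (R2 k), x = fun i =>
    ι (Polynomial.C (X (Sum.inl i))) := ⟨_, rfl⟩
  obtain ⟨y, hy⟩ : ∃ y : Fin 3 → FractionRing (R2 k), y = fun i =>
    ι (Polynomial.C (X (Sum.inr i))) := ⟨_, rfl⟩
  obtain ⟨w, hw⟩ : ∃ w : FractionRing (R2 k), w = ι Polynomial.X := ⟨_, rfl⟩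
  have hev : ∀ P : R2 k, ev x y w P = ι P := by
    have h1 : ev x y w = (ι : R2 k →+* FractionRing (R2 k)) := by
      apply Polynomial.ringHom_ext
      · intro a
        unfold ev
        rw [Polynomial.coe_eval₂RingHom, Polynomial.eval₂_C]
        have h2 : (aeval (Sum.elim x y) : A2 k →ₐ[k] FractionRing (R2 k)) =
            ι.comp (Polynomial.CAlgHom : A2 k →ₐ[k] R2 k) := by
          apply MvPolynomial.algHom_ext
          intro i
          rw [aeval_X, AlgHom.comp_apply]
          rcases i with i | i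
          · rw [Sum.elim_inl, hx]
            rfl
          · rw [Sum.elim_inr, hy]
            rfl
        exact DFunLike.congr_fun h2 a
      · unfold ev
        rw [Polynomial.coe_eval₂RingHom, Polynomial.eval₂_X, hw]
        rfl
    intro P
    rw [h1]
    rfl
  have hxP : ∀ P : MvPolynomial (Fin 3) k, P ≠ 0 → aeval x P ≠ 0 := by
    intro P hP h
    have h1 : (aeval x : MvPolynomial (Fin 3) k →ₐ[k] FractionRing (R2 k)) =
        (ι.comp (Polynomial.CAlgHom : A2 k →ₐ[k] R2 k)).comp (rename Sum.inl) := by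
      apply MvPolynomial.algHom_ext
      intro i
      rw [aeval_X, AlgHom.comp_apply, rename_X, hx]
      rfl
    rw [h1, AlgHom.comp_apply, AlgHom.comp_apply] at h
    have h2 := hinj (h.trans (map_zero ι).symm)
    have h3 : (rename Sum.inl P : A2 k) = 0 := Polynomial.C_injective (h2.trans (map_zero _).symm)
    exact hP (rename_injective _ Sum.inl_injective (h3.trans (map_zero _).symm))
  have hg : gr G x l ≠ 0 := hxP _ (hder l).1
  have hG0 : G ≠ 0 := by
    intro h
    apply (hder l).1
    rw [h, map_zero]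
  obtain ⟨D, hD⟩ : ∃ D, D = (d : FractionRing (R2 k)) * aeval x G := ⟨_, rfl⟩
  have hD0 : D ≠ 0 := by
    rw [hD]
    exact mul_ne_zero (Nat.cast_ne_zero.2 (by omega)) (hxP G hG0)
  have heul : dp (gr G x) x = D := by rw [hD]; exact euler G d hG.hom x
  obtain ⟨η, hη⟩ : ∃ η, η = - (dp (gr G x) y / D) := ⟨_, rfl⟩
  obtain ⟨q, hq⟩ : ∃ q : Fin 3 → FractionRing (R2 k), q = fun i => y i + η * x i := ⟨_, rfl⟩
  have hgq : dp (gr G x) q = 0 := by
    have h1 : dp (gr G x) q = dp (gr G x) y + η * dp (gr G x) x := by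
      rw [hq]
      unfold dp
      rw [Finset.mul_sum, ← Finset.sum_add_distrib]
      exact Finset.sum_congr rfl fun i _ => by ring
    rw [h1, heul, hη]
    field_simp
    ring
  obtain ⟨s, hs⟩ : ∃ s : Fin 3 → FractionRing (R2 k), s = fun i =>
    (w * gr G x i + hs G x q * cr x q i) / D := ⟨_, rfl⟩
  have hJP : JP G x q s := by
    refine ⟨hgq, fun i => ?_⟩
    have h1 : cr (gr G x) s i = Pool.Agent.H84.SM.hs G x q / D * cr (gr G x) (cr x q) i := by
      rw [hs]
      unfold cr
      field_simp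
      ring
    rw [h1, cr_cr, hgq, heul]
    field_simp
    ring
  have hdp : dp x s = w := by
    have h1 : dp x s = (w * dp (gr G x) x + Pool.Agent.H84.SM.hs G x q * dp x (cr x q)) / D := by
      rw [hs]
      unfold dp
      rw [Finset.mul_sum, Finset.mul_sum, ← Finset.sum_add_distrib, Finset.sum_div]
      exact Finset.sum_congr rfl fun i _ => by ring
    rw [h1, heul, dp_cr_self]
    field_simp
    ring
  have hval := (hVAL k G d hG.hom (FractionRing (R2 k)) x q s l (gr G x l)⁻¹ hJP
    (inv_mul_cancel₀ hg) N).1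
  rw [h0, map_zero, hdp, hq, ev_shift x y w η N hN, hev] at hval
  exact hinj (hval.symm.trans (map_zero ι).symm)

end Pool.Agent.H85.ND
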